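import Pool.Agent.Q64.LC.Main

/-!
# The special sets of the holomorphic curves with gaps in quasi-projective varieties

Let `X` be a projective algebraic set which is cut out by the forms of degree at most `D` in `p`,
and let `Q` be a form of degree at most `D`. Every entire curve in `X - {Q = 0}` is given by entire
functions `f` such that `Q (f)` is constant.

The Zariski closure of the union of the entire curves in `X - {Q = 0}` such that the power series
`f = ∑ z ^ i a i` has infinitely many gaps `(α, β)` with `D α < β` is the Zariski closure of the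
union of the nonconstant polynomial curves `f` in `X - {Q = 0}`. The Zariski closure of the union of
those with infinitely many isolated blocks of exponents is the Zariski closure of the union of the
lines in `X - {Q = 0}`; it is a proper subset of `X` if `X - {Q = 0}` is irreducible with a nonzero
logarithmic pluricanonical form. The same holds for holomorphic curves on discs.
-/

set_option autoImplicit false

namespace Pool.Agent.Results.MP_160ed4_ag.GapSeriesSpecialSets

open MvPolynomial Pool.Agent.TH143.GT Pool.Agent.W602.GT Pool.Agent.W603.GR Pool.Agent.Q64.LC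

theorem result {n q D : ℕ} {p : Ideal (MvPolynomial (Fin (n + 1)) ℂ)}
    {Q : MvPolynomial (Fin (n + 1)) ℂ} (hQ : Q.IsHomogeneous q) (hD : 1 ≤ D) (hqD : q ≤ D)
    (hcut : CutBy D p) :
    -- gaps
    (∀ G : MvPolynomial (Fin (n + 1)) ℂ, List.TFAE [
      ∀ T, PolyCurve p Q T → ∀ z : ℂ, eval (fun j => (T j).eval z) G = 0,
      ∀ (a : ℕ → Fin (n + 1) → ℂ) (f : ℂ → Fin (n + 1) → ℂ), (∀ r > 0, Curve p Q r a f) →
        (∃ r, NonConst r f) → Gaps D a → ∀ z : ℂ, eval (f z) G = 0,
      ∀ (r : ℝ) (a : ℕ → Fin (n + 1) → ℂ) (f : ℂ → Fin (n + 1) → ℂ), Curve p Q r a f →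
        NonConst r f → Gaps D a → ∀ z : ℂ, ‖z‖ < r → eval (f z) G = 0]) ∧
    -- isolated blocks
    (∀ G : MvPolynomial (Fin (n + 1)) ℂ, List.TFAE [
      ∀ x v, Line p Q x v → ∀ t : ℂ, eval (x + t • v) G = 0,
      ∀ (a : ℕ → Fin (n + 1) → ℂ) (f : ℂ → Fin (n + 1) → ℂ), (∀ r > 0, Curve p Q r a f) →
        Isolated D a → ∀ z : ℂ, eval (f z) G = 0,
      ∀ (r : ℝ) (a : ℕ → Fin (n + 1) → ℂ) (f : ℂ → Fin (n + 1) → ℂ), Curve p Q r a f →
        Isolated D a → ∀ z : ℂ, ‖z‖ < r → eval (f z) G = 0]) ∧
    -- varieties with a logarithmic pluricanonical form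
    (∀ (w : ℕ) (K : Type) [Field K] [Algebra ℂ K] (y : Fin (n + 1) → K), FunField p Q K w y →
      (∃ N : ℕ, 0 < N ∧ ∃ ω : (Fin w → Derivation ℂ K K) → K,
        LogSec ℂ K w N (OffQ Q q y) ω ∧ ω ≠ 0) →
      ∃ G : MvPolynomial (Fin (n + 1)) ℂ, IsForm G ∧ G ∉ p ∧
        ∀ (r : ℝ) (a : ℕ → Fin (n + 1) → ℂ) (f : ℂ → Fin (n + 1) → ℂ), Curve p Q r a f →
          Isolated D a → ∀ z : ℂ, ‖z‖ < r → eval (f z) G = 0) := by
  refine ⟨fun G => ?_, fun G => ?_, fun w K _ _ y hy h => ?_⟩
  · tfae_have 1 → 3 := fun hG r a f hf hnc hb z hz => vanish_gap hD hQ hqD hcut hG hf hnc hb hz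
    tfae_have 3 → 2 := by
      intro h a f hf hnc hb z
      obtain ⟨r, s, t, hs, ht, hst⟩ := hnc
      have h1 : r ≤ |r| + ‖z‖ + 1 := by
        have := le_abs_self r
        have := norm_nonneg z
        linarith
      have h2 : ‖z‖ < |r| + ‖z‖ + 1 := by
        have := abs_nonneg r
        linarith
      exact h _ a f (hf _ (by positivity)) ⟨s, t, hs.trans_le h1, ht.trans_le h1, hst⟩ hb z h2
    tfae_have 2 → 1 := by
      intro h T hT z
      have hser : ∀ z : ℂ, HasSum (fun i => z ^ i • fun j => (T j).coeff i)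
          (fun j => (T j).eval z) := by
        intro z
        rw [Pi.hasSum]
        intro j
        have h1 : (T j).eval z = ∑ i ∈ Finset.range ((T j).natDegree + 1),
            (z ^ i • fun j => (T j).coeff i) j := by
          rw [Polynomial.eval_eq_sum_range]
          exact Finset.sum_congr rfl fun i _ => mul_comm _ _
        rw [h1]
        apply hasSum_sum_of_ne_finset_zero
        intro i hi
        rw [Finset.mem_range, not_lt] at hi
        rw [Pi.smul_apply, Polynomial.coeff_eq_zero_of_natDegree_lt (by omega), smul_zero]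
      have hc : ∀ r > 0, Curve p Q r (fun i j => (T j).coeff i) (fun z j => (T j).eval z) := by
        intro r hr
        obtain ⟨c, hc, h1⟩ := hT.off
        exact ⟨hr, fun z _ => hser z, fun z _ H hH hf => hT.mem H hH hf z, c, hc, fun z _ => h1 z⟩
      have hnc : ∃ r, NonConst r fun z j => (T j).eval z := by
        obtain ⟨s, t, j, k, h1⟩ := hT.ind
        refine ⟨‖s‖ + ‖t‖ + 1, s, t, ?_, ?_, j, k, h1⟩
        · have := norm_nonneg t
          linarith
        · have := norm_nonneg s
          linarith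
      refine h _ _ hc hnc (fun L => ?_) z
      obtain ⟨m, hm⟩ : ∃ m, ∀ j, (T j).natDegree ≤ m :=
        ⟨Finset.univ.sup fun j => (T j).natDegree, fun j =>
          Finset.le_sup (f := fun j => (T j).natDegree) (Finset.mem_univ j)⟩
      refine ⟨m, L + D * m + 1, by omega, by omega, fun i hi _ => ?_⟩
      funext j
      exact Polynomial.coeff_eq_zero_of_natDegree_lt (lt_of_le_of_lt (hm j) hi)
    tfae_finish
  · tfae_have 1 → 3 := fun hG r a f hf hb z hz => vanish hD hQ hqD hcut hG hf hb hz
    tfae_have 3 → 2 := fun h a f hf hb z =>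
      h (‖z‖ + 1) a f (hf _ (by positivity)) hb z (by linarith)
    tfae_have 2 → 1 := by
      intro h x v hl t
      obtain ⟨a, f, hf, hb, hf0⟩ := lac_curve hD (hl.shift t)
      rw [← hf0]
      exact h a f hf hb 0
    tfae_finish
  · obtain ⟨N, hN, ω, hω, hω0⟩ := h
    have hG : ∃ G, IsForm G ∧ G ∉ p ∧ ∀ x v, Line p Q x v → ∀ t : ℂ, eval (x + t • v) G = 0 := by
      by_contra hno
      exact hω0 ((lines_main hy hQ hno).2 N hN ω hω)
    obtain ⟨G, hG1, hG2, hG3⟩ := hG
    exact ⟨G, hG1, hG2, fun r a f hf hb z hz => vanish hD hQ hqD hcut hG3 hf hb hz⟩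

end Pool.Agent.Results.MP_160ed4_ag.GapSeriesSpecialSets
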