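import Mathlib
import Pool.Agent.Q33.SP.Main

/-!
MP_160ed4_ag: the parts of the special sets swept out by curves with `r` terms.
-/

set_option autoImplicit false

namespace Pool.Agent.Results.MP_160ed4_ag.PowerSumCurves

open MvPolynomial Filter Topology FF Pool.Agent.W602.GT Pool.Agent.TH143.GT Pool.Agent.Q33.SP
open Pool.Agent.W603.GR (OffQ)

/-- Let `X` be the quasi-projective variety `F = 0`, `Q ≠ 0` given by forms of degree at most `D`,
let `r ≥ 1`. The finite set `Exps r D` of exponent vectors depends on `r` and `D` only.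

(1), (2) Through the points of the curves in `X` which are sums of `r` terms given by `M`-th powers,
`M ≥ (number of monomials of degree D in r variables) ^ 2`, pass nonconstant curves
`∑_j U_j T ^ e_j` in `X` with `e` in `Exps r D`: for maps from the punctured disc with an essential
singularity and for entire curves.

(3) The parts of `Sp_p(X)`, `Sp_h(X)`, `Sp_sab(X)` swept out by such maps from the punctured disc,
entire curves, and maps from tori with `r` monomials coincide for all these `M`, and are swept out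
by the curves with `r` monomials and exponents in `Exps r D`.

(4) If `X` is irreducible and of log general type then this common part of the special sets is a
proper subset of `X`.

(5) Sums of `r` terms without zeros are sums of `r` terms given by `M`-th powers for all `M`. -/
theorem result {n r D q : ℕ} {ι : Type} (F : ι → MvPolynomial (Fin (n + 1)) ℂ)
    (hF : ∀ i, ∃ d, d ≤ D ∧ (F i).IsHomogeneous d) (Q : MvPolynomial (Fin (n + 1)) ℂ)
    (hQ : Q.IsHomogeneous q) (hq : q ≤ D) (hr : 1 ≤ r) :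
    (∀ M, ((r + D - 1).choose D) ^ 2 ≤ M →
      (∀ f, PunctSp r M F Q f → ∃ e ∈ Exps r D, ∃ δ > 0, ∀ z0 : ℂ, z0 ≠ 0 → ‖z0‖ < δ →
        ∀ᶠ z in 𝓝[≠] z0, ∃ P, IsSp F Q e P ∧ ∀ i, (P i).eval 1 = f z i) ∧
      (∀ f, EntSp r M F Q f → ∀ z0 : ℂ, ∀ᶠ z in 𝓝[≠] z0, ∃ e ∈ Exps r D, ∃ P,
        IsSp F Q e P ∧ ∀ i, (P i).eval 1 = f z i) ∧
      ∀ G : MvPolynomial (Fin (n + 1)) ℂ,
        [(∀ f, PunctSp r M F Q f → ∀ w : ℂ, w ≠ 0 → ‖w‖ < 1 → eval (f w) G = 0),
          (∀ f, EntSp r M F Q f → ∀ z, eval (f z) G = 0),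
          (∀ g f, TorSp r g F Q f → ∀ t, (∀ a, t a ≠ 0) → eval (f t) G = 0),
          (∀ (e : Fin r → ℕ) P, IsSp F Q e P → aeval P G = 0),
          (∀ e ∈ Exps r D, ∀ P, IsSp F Q e P → aeval P G = 0)].TFAE) ∧
    (∀ (p : Ideal (MvPolynomial (Fin (n + 1)) ℂ)) [p.IsPrime],
      (∀ H, H ∈ p ↔ ∀ x, OnX F Q x → eval x H = 0) →
      ∀ (K : Type) [Field K] [Algebra ℂ K] (w : ℕ) (y : Fin (n + 1) → K), FunField p Q K w y →
        LogGeneralType ℂ K w (OffQ Q q y) →
        ∃ G : MvPolynomial (Fin (n + 1)) ℂ, IsForm G ∧ G ∉ p ∧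
          ∀ M, ((r + D - 1).choose D) ^ 2 ≤ M →
            (∀ f, PunctSp r M F Q f → ∀ w : ℂ, w ≠ 0 → ‖w‖ < 1 → eval (f w) G = 0) ∧
            (∀ f, EntSp r M F Q f → ∀ z, eval (f z) G = 0) ∧
            (∀ g f, TorSp r g F Q f → ∀ t, (∀ a, t a ≠ 0) → eval (f t) G = 0)) ∧
    (∀ f : ℂ → Fin (n + 1) → ℂ, SumUnit r f → ∀ M, 0 < M → SumPow r M f) := by
  have hM0 : ∀ M, ((r + D - 1).choose D) ^ 2 ≤ M → 0 < M := fun M hM =>
    lt_of_lt_of_le (pow_pos (Nat.choose_pos (by omega)) 2) hM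
  have key : ∀ M, ((r + D - 1).choose D) ^ 2 ≤ M → ∀ G : MvPolynomial (Fin (n + 1)) ℂ,
        [(∀ f, PunctSp r M F Q f → ∀ w : ℂ, w ≠ 0 → ‖w‖ < 1 → eval (f w) G = 0),
          (∀ f, EntSp r M F Q f → ∀ z, eval (f z) G = 0),
          (∀ g f, TorSp r g F Q f → ∀ t, (∀ a, t a ≠ 0) → eval (f t) G = 0),
          (∀ (e : Fin r → ℕ) P, IsSp F Q e P → aeval P G = 0),
          (∀ e ∈ Exps r D, ∀ P, IsSp F Q e P → aeval P G = 0)].TFAE := fun M hM G =>
    tfae F hF Q hQ hq hM (hM0 M hM) G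
  refine ⟨fun M hM => ⟨fun f hf => ?_, fun f hf z0 => ent_pt F hF Q hQ hq hM f hf z0, key M hM⟩,
    ?_, fun f hf M hM => hf.pow hM⟩
  · refine pt_main F hF Q hQ hq hM f hf.sum hf.ess ?_
    filter_upwards [Pool.Agent.W603.BP.PB_mem one_pos] with w hw
    exact hf.on w hw.1 hw.2
  · intro p _ hp K _ _ w y hy hlog
    obtain ⟨G, h1, h2, h3⟩ := excep_gt (r := r) (D := D) hQ (fun H hH => (hp H).1 hH) hy hlog
    refine ⟨G, h1, h2, fun M hM => ?_⟩
    have h4 := key M hM G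
    exact ⟨(h4.out 4 0).1 h3, (h4.out 4 1).1 h3, (h4.out 4 2).1 h3⟩

end Pool.Agent.Results.MP_160ed4_ag.PowerSumCurves
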