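import Pool.Agent.Q186.TS.Res

/-!
# Truncated inequalities for curves in quasi-projective varieties of log general type

MP_160ed4_ag, Q1. `Y` is the closed irreducible variety in `P^n` with the ideal `p`, of dimension
`d`, with the function field `K` and the generic point `y`, and `X` is the complement of the
hypersurface `Q₀ = 0` in `Y`. `D` is the union of the hypersurfaces `F 0 = 0, …, F d = 0` in `Y`,
where `F 0, …, F d` are forms of the same degree `e > 0` that do not vanish on `Y` and have no common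
zero on `Y`. `R` and `Q` are forms that do not vanish on `Y`.
-/

set_option autoImplicit false

namespace Pool.Agent.Results.MP_160ed4_ag.TruncatedInequalities

open MvPolynomial Metric Set Filter Topology FF MeasureTheory
open Pool.Agent.W602.GT Pool.Agent.TH143 Pool.Agent.TH143.GT Pool.Agent.W603.BP
  Pool.Agent.W603.BPR Pool.Agent.W603.GR Pool.Agent.W603.PV

section defs

variable {n k : ℕ}

/-- The valuation `P` of the function field `K` is the order of vanishing along a prime divisor of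
the normalization of the variety of dimension `d` with the generic point `y`: its centre on the
variety has dimension `d - 1`. That is, there are forms `u l` (`l < d - 1`) and `v` of the same
degree such that `v` does not vanish at the generic point of the centre and the restrictions of the
functions `u l / v` to the centre are algebraically independent. -/
def PrimeDivisor {K : Type} [Field K] [Algebra ℂ K] (y : Fin (n + 1) → K) (d : ℕ)
    (P : Place ℂ K) : Prop :=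
  ∃ (m : ℕ) (u : Fin (d - 1) → MvPolynomial (Fin (n + 1)) ℂ) (v : MvPolynomial (Fin (n + 1)) ℂ),
    (∀ l, (u l).IsHomogeneous m) ∧ v.IsHomogeneous m ∧ aeval y v ≠ 0 ∧
    (∀ i, y i ≠ 0 → P.ord (aeval y v) ≤ m * P.ord (y i)) ∧
    ∀ A : MvPolynomial (Fin (d - 1)) ℂ, A ≠ 0 →
      aeval (fun l => aeval y (u l) / aeval y v) A ≠ 0 ∧
      P.ord (aeval (fun l => aeval y (u l) / aeval y v) A) = 0

/-- The multiplicity of the hypersurface `Q = 0` of degree `q` along the prime divisor `P` is at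
most `μ`: the order of `Q / (y j) ^ q` at `P` is at most `μ` for all `j` with `y j ≠ 0`. -/
def MultLe {K : Type} [Field K] [Algebra ℂ K] (y : Fin (n + 1) → K)
    (Q : MvPolynomial (Fin (n + 1)) ℂ) (q μ : ℕ) (P : Place ℂ K) : Prop :=
  ∀ j, y j ≠ 0 → P.ord (aeval y Q) ≤ q * P.ord (y j) + μ

/-- The characteristic function of a holomorphic map from the punctured disc: the mean of `log ‖f‖`
on the circle of radius `1 / r`, minus the mean on the circle of radius `1 / 2`. -/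
noncomputable def discChar (f : ℂ → Fin (n + 1) → ℂ) (r : ℝ) : ℝ :=
  Real.circleAverage (fun w => Real.log ‖f w‖) 0 r⁻¹ -
    Real.circleAverage (fun w => Real.log ‖f w‖) 0 2⁻¹

/-- The counting function of the divisor `c` in the punctured disc: the points `w` with
`1 / r ≤ |w| < 1 / 2`, with the multiplicity `c w` and the weight `log (r |w|)`. -/
noncomputable def discCount (c : ℂ → ℕ) (r : ℝ) : ℝ :=
  ∑ᶠ (w : ℂ) (_ : w ∈ {w : ℂ | r⁻¹ ≤ ‖w‖ ∧ ‖w‖ < 2⁻¹}), c w * Real.log (r * ‖w‖)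

/-- The characteristic function of an entire curve: the mean of `log ‖f‖` on the circle of radius
`r`, minus `log ‖f 0‖`. -/
noncomputable def entChar (f : ℂ → Fin (n + 1) → ℂ) (r : ℝ) : ℝ :=
  Real.circleAverage (fun z => Real.log ‖f z‖) 0 r - Real.log ‖f 0‖

/-- The contribution of the point `z` to the counting function: `log (r / |z|)` if `|z| ≤ r`, and
`log r` if `z = 0`. -/
noncomputable def weight (r : ℝ) (z : ℂ) : ℝ :=
  if z = 0 then Real.log r else if ‖z‖ ≤ r then Real.log (r / ‖z‖) else 0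

/-- The counting function of the divisor `c` in the plane. -/
noncomputable def entCount (c : ℂ → ℕ) (r : ℝ) : ℝ := ∑ᶠ z : ℂ, c z * weight r z

open Classical in
/-- `1` at the points which `f` maps to `D`, and `0` at the other points. -/
noncomputable def onD (F : Fin (k + 1) → MvPolynomial (Fin (n + 1)) ℂ)
    (f : ℂ → Fin (n + 1) → ℂ) (z : ℂ) : ℕ := if ∃ i, eval (f z) (F i) = 0 then 1 else 0

open Classical in
/-- The excess over `μ` of the multiplicity with which `f` meets `Q = 0` at `z`, if `f z` is not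
in `D`, and `0` if `f z` is in `D`. -/
noncomputable def excess (F : Fin (k + 1) → MvPolynomial (Fin (n + 1)) ℂ)
    (Q : MvPolynomial (Fin (n + 1)) ℂ) (μ : ℕ) (f : ℂ → Fin (n + 1) → ℂ) (z : ℂ) : ℕ :=
  if ∃ i, eval (f z) (F i) = 0 then 0 else (analyticOrderAt (fun z => eval (f z) Q) z).toNat - μ

open Classical in
/-- `1` at the points which `f` maps to `D` or to `R = 0`, and at the points where `f` meets `Q = 0`
with a multiplicity at most `μ`, and `0` at the other points. -/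
noncomputable def counted (F : Fin (k + 1) → MvPolynomial (Fin (n + 1)) ℂ)
    (R Q : MvPolynomial (Fin (n + 1)) ℂ) (μ : ℕ) (f : ℂ → Fin (n + 1) → ℂ) (z : ℂ) : ℕ :=
  if (∃ i, eval (f z) (F i) = 0) ∨ eval (f z) R = 0 ∨
    (eval (f z) Q = 0 ∧ analyticOrderAt (fun z => eval (f z) Q) z ≤ μ) then 1 else 0

/-- At `z` the map `f` meets some `F i = 0` or `R = 0` with a multiplicity smaller than `m`, or,
outside of `D` and of `R = 0`, it meets `Q = 0` with a multiplicity at most `μ`. -/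
def LowContact (F : Fin (k + 1) → MvPolynomial (Fin (n + 1)) ℂ)
    (R Q : MvPolynomial (Fin (n + 1)) ℂ) (μ m : ℕ) (f : ℂ → Fin (n + 1) → ℂ) (z : ℂ) : Prop :=
  (∃ i, eval (f z) (F i) = 0 ∧ analyticOrderAt (fun z => eval (f z) (F i)) z < m) ∨
    (eval (f z) R = 0 ∧ analyticOrderAt (fun z => eval (f z) R) z < m) ∨
    ((∀ i, eval (f z) (F i) ≠ 0) ∧ eval (f z) R ≠ 0 ∧ eval (f z) Q = 0 ∧
      analyticOrderAt (fun z => eval (f z) Q) z ≤ μ)

end defs

open Pool.Agent.Q186.TS in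
theorem discCount_eq (c : ℂ → ℕ) {r : ℝ} (hr : 0 < r) :
    discCount c r = NE (fun z => (c z⁻¹ : ℝ)) r := NE_inv (fun z => (c z : ℝ)) hr

open Pool.Agent.Q186.TS in
theorem discChar_eq {n : ℕ} (f : ℂ → Fin (n + 1) → ℂ) (r : ℝ) :
    discChar f r = Pool.Agent.Q161.PD.CharE (fun z => f z⁻¹) r := CharE_inv f r

theorem mem_set {z : ℂ} : z ∈ ball (0 : ℂ) 1 \ {0} ↔ z ∈ PB 1 := mem_disc

/-- the inequality for the excess of the multiplicities -/
theorem part_a {n d : ℕ} {p : Ideal (MvPolynomial (Fin (n + 1)) ℂ)} (hp : IsHomog p)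
    {Q₀ : MvPolynomial (Fin (n + 1)) ℂ}
    {K : Type} [Field K] [Algebra ℂ K] {y : Fin (n + 1) → K} (hy : FunField p Q₀ K d y)
    {F : Fin (d + 1) → MvPolynomial (Fin (n + 1)) ℂ} {e : ℕ} (he : 0 < e)
    (hF : ∀ i, (F i).IsHomogeneous e) (hFp : ∀ i, F i ∉ p)
    (hcz : ∀ x : Fin (n + 1) → ℂ, x ≠ 0 → (∀ H ∈ p, eval x H = 0) → ∃ i, eval x (F i) ≠ 0)
    {Q : MvPolynomial (Fin (n + 1)) ℂ} {q : ℕ} (hQ : Q.IsHomogeneous q)
    (hQp : Q ∉ p) {μ : ℕ}
    (hμ : ∀ P : Place ℂ K, PrimeDivisor y d P → (∀ i, ¬ OffQ (F i) e y P) → MultLe y Q q μ P)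
    {δ : ℝ} (hδ : 0 < δ) :
    ∃ (G : MvPolynomial (Fin (n + 1)) ℂ) (C : ℝ), IsForm G ∧ G ∉ p ∧
      ∀ f, PCurve p 1 f → (∃ w ∈ ball (0 : ℂ) 1 \ {0}, eval (f w) G ≠ 0) → ¬ Extends f →
        ∃ S : Set ℝ, volume S < ⊤ ∧ ∀ r, 2 < r → r ∉ S →
          discCount (excess F Q μ f) r ≤ δ * discChar f r + C * discCount (onD F f) r := by
  have hFy : ∀ i, aeval y (F i) ≠ 0 := fun i h => hFp i (hy.mem _ ⟨e, hF i⟩ h)
  have hQy : aeval y Q ≠ 0 := fun h => hQp (hy.mem _ ⟨q, hQ⟩ h)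
  have hcz' : ∀ x ∈ Pool.Agent.Q72.NW.Cone y, x ≠ 0 → ∃ i, eval x (F i) ≠ 0 := fun x hx hx0 =>
    hcz x hx0 (Pool.Agent.Q161.PD.of_cone hp hy hx)
  have hgen : IntermediateField.adjoin ℂ {g : K | ∃ i j, y j ≠ 0 ∧ g = y i / y j} = ⊤ := hy.sub.gen
  obtain ⟨B, E, C, hB, hBy, -, -, hmain⟩ := Pool.Agent.Q186.TS.main_a hy.sub.ne hgen hy.sub.dim F e
    he hF hFy hcz' Q q hQ hQy μ (fun P hP h => hμ P hP
      (Pool.Agent.Q186.TS.not_off hy.sub.ne F hF hFy hcz' h)) hδ
  refine ⟨B, C, ⟨E, hB⟩, fun h => hBy (hy.sub.mem _ h), fun f hf hfG hext => ?_⟩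
  have htr : Pool.Agent.Q72.NW.Tra (fun z => f z⁻¹) := by
    by_contra h
    exact hext (Pool.Agent.Q161.PD.ext_of_not_tra (fun j => hf.an j)
      (fun w hw => (hf.2 w (mem_set.2 hw)).1) h)
  obtain ⟨S, hS, hSr⟩ := hmain (fun z => f z⁻¹) (Pool.Agent.Q186.TS.inv_cur fun j => hf.an j)
    (fun z hz => (hf.2 _ (mem_set.2 (Pool.Agent.Q186.TS.mem_ext hz))).1)
    (fun z hz => Pool.Agent.Q161.PD.cone_of hy
      (hf.2 _ (mem_set.2 (Pool.Agent.Q186.TS.mem_ext hz))).2.1) (by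
      obtain ⟨w, hw, hwG⟩ := hfG
      exact ⟨w⁻¹, Pool.Agent.Q186.TS.mem_pb (mem_set.1 hw), by simp only [inv_inv]; exact hwG⟩) htr
  refine ⟨S, hS, fun r hr hrS => ?_⟩
  have h1 := hSr r hr hrS
  rw [discCount_eq _ (by linarith), discCount_eq _ (by linarith), discChar_eq]
  have h2 : Pool.Agent.Q186.TS.NE (fun z => (excess F Q μ f z⁻¹ : ℝ)) r =
      Pool.Agent.Q186.TS.NE (Pool.Agent.Q186.TS.EQ F Q μ fun z => f z⁻¹) r := by
    refine Pool.Agent.Q186.TS.NE_congr (fun x hx => ?_) r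
    have hx0 : x ≠ 0 := by
      rintro rfl
      rw [norm_zero] at hx
      linarith
    unfold excess Pool.Agent.Q186.TS.EQ Pool.Agent.Q186.TS.om
    rw [Pool.Agent.Q161.PD.ord_inv_eq (fun z => eval (f z) Q) hx0]
    split_ifs <;> simp
  have h3 : Pool.Agent.Q186.TS.NE (fun z => (onD F f z⁻¹ : ℝ)) r =
      Pool.Agent.Q161.PD.CountE F (fun z => f z⁻¹) r := by
    symm
    refine Pool.Agent.Q186.TS.NE_ind (S := {x | ∃ i, eval (f x⁻¹) (F i) = 0}) (fun x hx => ?_)
      (fun x hx => ?_) r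
    · unfold onD
      rw [if_pos (show ∃ i, eval (f x⁻¹) (F i) = 0 from hx), Nat.cast_one]
    · unfold onD
      rw [if_neg (show ¬ ∃ i, eval (f x⁻¹) (F i) = 0 from hx), Nat.cast_zero]
  rw [h2, h3]
  exact h1

/-- the inequality for varieties of log general type -/
theorem part_b {n d : ℕ} {p : Ideal (MvPolynomial (Fin (n + 1)) ℂ)} (hp : IsHomog p)
    {Q₀ : MvPolynomial (Fin (n + 1)) ℂ} {q₀ : ℕ} (hQ₀ : Q₀.IsHomogeneous q₀)
    {K : Type} [Field K] [Algebra ℂ K] {y : Fin (n + 1) → K} (hy : FunField p Q₀ K d y)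
    {F : Fin (d + 1) → MvPolynomial (Fin (n + 1)) ℂ} {e : ℕ} (he : 0 < e)
    (hF : ∀ i, (F i).IsHomogeneous e) (hFp : ∀ i, F i ∉ p)
    (hcz : ∀ x : Fin (n + 1) → ℂ, x ≠ 0 → (∀ H ∈ p, eval x H = 0) → ∃ i, eval x (F i) ≠ 0)
    {R Q : MvPolynomial (Fin (n + 1)) ℂ} {s q : ℕ} (hR : R.IsHomogeneous s)
    (hQ : Q.IsHomogeneous q) (hRp : R ∉ p) (hQp : Q ∉ p) {μ : ℕ}
    (hμ : ∀ P : Place ℂ K, PrimeDivisor y d P → (∀ i, ¬ OffQ (F i) e y P) → MultLe y Q q μ P)
    (hgt : LogGeneralType ℂ K d (OffQ Q₀ q₀ y))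
    (hbd : ∀ x : Fin (n + 1) → ℂ, (∀ H ∈ p, eval x H = 0) → eval x Q₀ = 0 →
      (∃ i, eval x (F i) = 0) ∨ eval x R = 0 ∨ eval x Q = 0) :
    ∃ (G : MvPolynomial (Fin (n + 1)) ℂ) (ε : ℝ) (m : ℕ), IsForm G ∧ G ∉ p ∧ 0 < ε ∧
      (∀ f, PCurve p 1 f → (∃ w ∈ ball (0 : ℂ) 1 \ {0}, eval (f w) G ≠ 0) → ¬ Extends f →
        (∀ C : ℝ, ∀ᶠ r in atTop, C * Real.log r ≤ discChar f r) ∧
        (∃ S : Set ℝ, volume S < ⊤ ∧ ∀ r, 2 < r → r ∉ S →
          ε * discChar f r ≤ discCount (counted F R Q μ f) r) ∧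
        ∃ w ∈ ball (0 : ℂ) 1 \ {0}, LowContact F R Q μ m f w) ∧
      ∀ f, EntireCurve p 1 f → (∃ z, eval (f z) G ≠ 0) →
        (∃ S : Set ℝ, volume S < ⊤ ∧ ∀ r, 0 < r → r ∉ S →
          ε * entChar f r ≤ entCount (counted F R Q μ f) r) ∧
        ∃ z, LowContact F R Q μ m f z := by
  have hFy : ∀ i, aeval y (F i) ≠ 0 := fun i h => hFp i (hy.mem _ ⟨e, hF i⟩ h)
  have hQy : aeval y Q ≠ 0 := fun h => hQp (hy.mem _ ⟨q, hQ⟩ h)
  have hRy : aeval y R ≠ 0 := fun h => hRp (hy.mem _ ⟨s, hR⟩ h)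
  have hcz' : ∀ x ∈ Pool.Agent.Q72.NW.Cone y, x ≠ 0 → ∃ i, eval x (F i) ≠ 0 := fun x hx hx0 =>
    hcz x hx0 (Pool.Agent.Q161.PD.of_cone hp hy hx)
  have hgen : IntermediateField.adjoin ℂ {g : K | ∃ i j, y j ≠ 0 ∧ g = y i / y j} = ⊤ := hy.sub.gen
  have hbd' : ∀ P, OffQ Q₀ q₀ y P →
      ∃ i, P.ord (aeval y (Pool.Agent.Q186.TS.ff F R Q e q s i)) ≠
        P.ord (aeval y (Pool.Agent.Q186.TS.ff F R Q e q s 0)) := fun P hP =>
    Pool.Agent.Q161.PD.offQ_ord hy.sub.ne (Pool.Agent.Q186.TS.ff F R Q e q s)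
      (Pool.Agent.Q186.TS.ff_hom hF hR hQ) (Pool.Agent.Q186.TS.ff_ne hFy hRy hQy)
      (fun x hx hx0 => by
        obtain ⟨i, hi⟩ := hcz' x hx hx0
        refine ⟨i.castSucc, ?_⟩
        rw [Pool.Agent.Q186.TS.ff_castSucc, map_pow]
        exact pow_ne_zero _ hi) hQ₀ hy.sub.off
      (fun x hx hxQ => (Pool.Agent.Q186.TS.ff_zero_iff F R Q he q s x).2
        (hbd x (Pool.Agent.Q161.PD.of_cone hp hy hx) hxQ)) P hP
  obtain ⟨B, E, ε, m, hB, hBy, hε, h1, h2⟩ := Pool.Agent.Q186.TS.ent_b hy.sub.ne hgen hy.sub.dim F e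
    he hF hFy hcz' R s hR hRy Q q hQ hQy μ (fun P hP h => hμ P hP
      (Pool.Agent.Q186.TS.not_off hy.sub.ne F hF hFy hcz' h)) (OffQ Q₀ q₀ y) hbd' hgt
  refine ⟨B, ε / 2, m, ⟨E, hB⟩, fun h => hBy (hy.sub.mem _ h), by positivity,
    fun f hf hfG hext => ?_, fun f hf hfG => ?_⟩
  · have htr : Pool.Agent.Q72.NW.Tra (fun z => f z⁻¹) := by
      by_contra h
      exact hext (Pool.Agent.Q161.PD.ext_of_not_tra (fun j => hf.an j)
        (fun w hw => (hf.2 w (mem_set.2 hw)).1) h)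
    obtain ⟨⟨S, hS, hSr⟩, z, hz, hlow⟩ := h1 (fun z => f z⁻¹)
      (Pool.Agent.Q186.TS.inv_cur fun j => hf.an j)
      (fun z hz => (hf.2 _ (mem_set.2 (Pool.Agent.Q186.TS.mem_ext hz))).1)
      (fun z hz => Pool.Agent.Q161.PD.cone_of hy
        (hf.2 _ (mem_set.2 (Pool.Agent.Q186.TS.mem_ext hz))).2.1) (by
        obtain ⟨w, hw, hwG⟩ := hfG
        exact ⟨w⁻¹, Pool.Agent.Q186.TS.mem_pb (mem_set.1 hw), by
          simp only [inv_inv]; exact hwG⟩) htr
    have hT : ∀ C : ℝ, ∀ᶠ r in atTop, C * Real.log r ≤ discChar f r := by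
      intro C
      obtain ⟨R0, hR0⟩ := htr (C + 1)
      filter_upwards [eventually_ge_atTop R0,
        Real.tendsto_log_atTop.eventually_ge_atTop |Pool.Agent.Q72.TR.Tm (fun z => f z⁻¹) 2|] with
        r h3 h4
      rw [discChar_eq]
      have h5 := hR0 r h3
      have h6 := le_abs_self (Pool.Agent.Q72.TR.Tm (fun z => f z⁻¹) 2)
      show _ ≤ Pool.Agent.Q72.TR.Tm (fun z => f z⁻¹) r - Pool.Agent.Q72.TR.Tm (fun z => f z⁻¹) 2
      linarith
    have hz0 : z ≠ 0 := by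
      rintro rfl
      rw [norm_zero] at hz
      linarith
    refine ⟨hT, ?_, z⁻¹, mem_set.2 (Pool.Agent.Q186.TS.mem_ext (by show 1 < ‖z‖; linarith)), ?_⟩
    · obtain ⟨R0, hR0⟩ := eventually_atTop.1 (hT 0)
      refine ⟨S ∪ Icc 0 R0, ?_, fun r hr hrS => ?_⟩
      · refine lt_of_le_of_lt (measure_union_le _ _) ?_
        rw [Real.volume_Icc]
        exact ENNReal.add_lt_top.2 ⟨hS, ENNReal.ofReal_lt_top⟩
      · have h3 : R0 ≤ r := by
          by_contra h
          exact hrS (Or.inr ⟨by linarith, (not_le.1 h).le⟩)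
        have h4 := hR0 r h3
        rw [zero_mul] at h4
        have h5 := hSr r hr fun h => hrS (Or.inl h)
        rw [← discChar_eq, Pool.Agent.Q186.TS.CD_eq] at h5
        have h6 : Pool.Agent.Q186.TS.NE (Pool.Agent.Q186.TS.ED F R Q μ fun z => f z⁻¹) r =
            discCount (counted F R Q μ f) r := by
          rw [discCount_eq _ (by linarith)]
          refine Pool.Agent.Q186.TS.NE_congr (fun x hx => ?_) r
          have hx0 : x ≠ 0 := by
            rintro rfl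
            rw [norm_zero] at hx
            linarith
          have key : (x ∈ Pool.Agent.Q186.TS.DS F R Q μ fun z => f z⁻¹) ↔
              ((∃ i, eval (f x⁻¹) (F i) = 0) ∨ eval (f x⁻¹) R = 0 ∨ (eval (f x⁻¹) Q = 0 ∧
                analyticOrderAt (fun z => eval (f z) Q) x⁻¹ ≤ μ)) := by
            rw [← Pool.Agent.Q161.PD.ord_inv_eq (fun z => eval (f z) Q) hx0]
            rfl
          unfold counted Pool.Agent.Q186.TS.ED
          by_cases hxD : x ∈ Pool.Agent.Q186.TS.DS F R Q μ fun z => f z⁻¹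
          · rw [if_pos hxD, if_pos (key.1 hxD), Nat.cast_one]
          · rw [if_neg hxD, if_neg (fun h => hxD (key.2 h)), Nat.cast_zero]
        rw [h6] at h5
        have h7 : ε / 2 * discChar f r ≤ ε * discChar f r :=
          mul_le_mul_of_nonneg_right (by linarith) h4
        linarith
    · unfold Pool.Agent.Q186.TS.Low at hlow
      rcases hlow with ⟨i, a1, a2⟩ | ⟨a1, a2⟩ | ⟨a1, a2, a3, a4⟩
      · rw [Pool.Agent.Q161.PD.ord_inv_eq (fun z => eval (f z) (F i)) hz0] at a2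
        exact Or.inl ⟨i, a1, a2⟩
      · rw [Pool.Agent.Q161.PD.ord_inv_eq (fun z => eval (f z) R) hz0] at a2
        exact Or.inr (Or.inl ⟨a1, a2⟩)
      · rw [Pool.Agent.Q161.PD.ord_inv_eq (fun z => eval (f z) Q) hz0] at a4
        exact Or.inr (Or.inr ⟨a1, a2, a3, a4⟩)
  · obtain ⟨⟨S, hS, hSr⟩, hlow⟩ := h2 f hf.1 (fun z => (hf.2.1 z).1)
      (fun z => Pool.Agent.Q161.PD.cone_of hy (hf.2.1 z).2.1) hf.2.2 hfG
    refine ⟨⟨S ∪ Icc 0 1, ?_, fun r hr hrS => ?_⟩, hlow⟩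
    · refine lt_of_le_of_lt (measure_union_le _ _) ?_
      rw [Real.volume_Icc]
      exact ENNReal.add_lt_top.2 ⟨hS, ENNReal.ofReal_lt_top⟩
    · have h3 : 1 ≤ r := by
        by_contra h
        exact hrS (Or.inr ⟨hr.le, (not_le.1 h).le⟩)
      have h5 := hSr r h3 fun h => hrS (Or.inl h)
      have h6 : Pool.Agent.Q186.TS.NC (Pool.Agent.Q186.TS.DS F R Q μ f) r =
          entCount (counted F R Q μ f) r := by
        classical
        unfold Pool.Agent.Q186.TS.NC entCount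
        refine finsum_congr fun x => ?_
        have key : (x ∈ Pool.Agent.Q186.TS.DS F R Q μ f) ↔
            ((∃ i, eval (f x) (F i) = 0) ∨ eval (f x) R = 0 ∨ (eval (f x) Q = 0 ∧
              analyticOrderAt (fun z => eval (f z) Q) x ≤ μ)) := Iff.rfl
        unfold counted
        by_cases hx : x ∈ Pool.Agent.Q186.TS.DS F R Q μ f
        · rw [finsum_eq_if, if_pos hx, if_pos (key.1 hx), Nat.cast_one, one_mul]
          rfl
        · rw [finsum_eq_if, if_neg hx, if_neg (fun h => hx (key.2 h)), Nat.cast_zero, zero_mul]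
      rw [h6] at h5
      exact h5

theorem counted_eq {n k : ℕ} {F : Fin (k + 1) → MvPolynomial (Fin (n + 1)) ℂ}
    {Q₀ : MvPolynomial (Fin (n + 1)) ℂ} {f : ℂ → Fin (n + 1) → ℂ} {z : ℂ}
    (h : eval (f z) Q₀ ≠ 0) : counted F Q₀ 1 0 f z = onD F f z := by
  unfold counted onD
  have h1 : ((∃ i, eval (f z) (F i) = 0) ∨ eval (f z) Q₀ = 0 ∨
      (eval (f z) (1 : MvPolynomial (Fin (n + 1)) ℂ) = 0 ∧
        analyticOrderAt (fun z => eval (f z) (1 : MvPolynomial (Fin (n + 1)) ℂ)) z ≤ (0 : ℕ))) ↔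
      ∃ i, eval (f z) (F i) = 0 := by
    constructor
    · rintro (h2 | h2 | ⟨h2, -⟩)
      · exact h2
      · exact absurd h2 h
      · rw [map_one] at h2
        exact absurd h2 one_ne_zero
    · exact Or.inl
  by_cases h2 : ∃ i, eval (f z) (F i) = 0
  · rw [if_pos (h1.2 h2), if_pos h2]
  · rw [if_neg (fun h3 => h2 (h1.1 h3)), if_neg h2]

theorem low_eq {n k : ℕ} {F : Fin (k + 1) → MvPolynomial (Fin (n + 1)) ℂ}
    {Q₀ : MvPolynomial (Fin (n + 1)) ℂ} {f : ℂ → Fin (n + 1) → ℂ} {z : ℂ} {m : ℕ}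
    (h : eval (f z) Q₀ ≠ 0) (hl : LowContact F Q₀ 1 0 m f z) :
    ∃ i, eval (f z) (F i) = 0 ∧ analyticOrderAt (fun z => eval (f z) (F i)) z < m := by
  rcases hl with h1 | ⟨h1, -⟩ | ⟨-, -, h1, -⟩
  · exact h1
  · exact absurd h1 h
  · rw [map_one] at h1
    exact absurd h1 one_ne_zero

theorem pts_one {n : ℕ} {p : Ideal (MvPolynomial (Fin (n + 1)) ℂ)}
    {Q₀ : MvPolynomial (Fin (n + 1)) ℂ} {x : Fin (n + 1) → ℂ} (h : x ∈ PtsP p Q₀) :
    x ∈ PtsP p 1 := ⟨h.1, h.2.1, by rw [map_one]; exact one_ne_zero⟩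

/-- `X = Y - {Q₀ = 0}`, `D`, `R` and `Q` are as above. Let `μ` be such that `Q = 0` has a
multiplicity at most `μ` along all prime divisors of `Y` that are not contained in `D` (for instance
`μ = 1` if the divisor `Q = 0` is reduced outside of `D`).

(1) Let `δ > 0`. There are a proper closed subset `G = 0` of `Y` and a number `C` such that, for
every holomorphic map `f` from the punctured disc to `Y` which does not extend to a holomorphic map
from the disc to projective space and whose image is not contained in `G = 0`, the counting function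
of the excess over `μ` of the multiplicities with which `f` meets `Q = 0` outside of `D` is at most
`δ T(r) + C N(r)` for all `r > 2` outside of a set of finite measure. Here `T(r)` is the
characteristic of `f` and `N(r)` counts the points which `f` maps to `D`, each point once.

(2) Suppose that `X` is of log general type and that its boundary `Q₀ = 0` is contained in the union
of `D`, `R = 0` and `Q = 0`. There are a proper closed subset `G = 0` of `Y` and numbers `ε > 0` and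
`m` with the following properties. Let `N(r)` count the points which `f` maps to `D` or to `R = 0`
and the points where `f` meets `Q = 0` with a multiplicity at most `μ`, each point once. Let `f` be a
holomorphic map from the punctured disc to `Y` which does not extend to the disc, or a nonconstant
entire curve in `Y`, whose image is not contained in `G = 0`. Then `ε T(r) ≤ N(r)` for all `r > 2`
(`r > 0`, respectively) outside of a set of finite measure, and there is a point where `f` meets some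
`F i = 0` or `R = 0` with a multiplicity smaller than `m`, or, outside of them, `Q = 0` with a
multiplicity at most `μ`. In the case of the punctured disc `T(r)` grows faster than every multiple
of `log r`.

(3) Suppose that `X` is of log general type. There are a proper closed subset `G = 0` of `Y` and
numbers `ε > 0` and `m` such that, for every holomorphic map from the punctured disc to `X` which
does not extend to the disc and every nonconstant entire curve in `X`, whose image is not contained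
in `G = 0`, one has `ε T(r) ≤ N(r)` for all `r > 2` (`r > 0`, respectively) outside of a set of
finite measure, where `N(r)` counts the points which `f` maps to `D`, each point once, and `f` meets
some `F i = 0` with a multiplicity smaller than `m`. -/
theorem result {n d : ℕ} (p : Ideal (MvPolynomial (Fin (n + 1)) ℂ)) (hp : IsHomog p)
    (Q₀ : MvPolynomial (Fin (n + 1)) ℂ) (q₀ : ℕ) (hQ₀ : Q₀.IsHomogeneous q₀)
    (K : Type) [Field K] [Algebra ℂ K] (y : Fin (n + 1) → K) (hy : FunField p Q₀ K d y)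
    (F : Fin (d + 1) → MvPolynomial (Fin (n + 1)) ℂ) (e : ℕ) (he : 0 < e)
    (hF : ∀ i, (F i).IsHomogeneous e) (hFp : ∀ i, F i ∉ p)
    (hcz : ∀ x : Fin (n + 1) → ℂ, x ≠ 0 → (∀ H ∈ p, eval x H = 0) → ∃ i, eval x (F i) ≠ 0)
    (R Q : MvPolynomial (Fin (n + 1)) ℂ) (s q : ℕ) (hR : R.IsHomogeneous s)
    (hQ : Q.IsHomogeneous q) (hRp : R ∉ p) (hQp : Q ∉ p) (μ : ℕ)
    (hμ : ∀ P : Place ℂ K, PrimeDivisor y d P → (∀ i, ¬ OffQ (F i) e y P) → MultLe y Q q μ P) :
    (∀ δ : ℝ, 0 < δ → ∃ (G : MvPolynomial (Fin (n + 1)) ℂ) (C : ℝ), IsForm G ∧ G ∉ p ∧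
      ∀ f, PCurve p 1 f → (∃ w ∈ ball (0 : ℂ) 1 \ {0}, eval (f w) G ≠ 0) → ¬ Extends f →
        ∃ S : Set ℝ, volume S < ⊤ ∧ ∀ r, 2 < r → r ∉ S →
          discCount (excess F Q μ f) r ≤ δ * discChar f r + C * discCount (onD F f) r) ∧
    (LogGeneralType ℂ K d (OffQ Q₀ q₀ y) →
      (∀ x : Fin (n + 1) → ℂ, (∀ H ∈ p, eval x H = 0) → eval x Q₀ = 0 →
        (∃ i, eval x (F i) = 0) ∨ eval x R = 0 ∨ eval x Q = 0) →
      ∃ (G : MvPolynomial (Fin (n + 1)) ℂ) (ε : ℝ) (m : ℕ), IsForm G ∧ G ∉ p ∧ 0 < ε ∧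
        (∀ f, PCurve p 1 f → (∃ w ∈ ball (0 : ℂ) 1 \ {0}, eval (f w) G ≠ 0) → ¬ Extends f →
          (∀ C : ℝ, ∀ᶠ r in atTop, C * Real.log r ≤ discChar f r) ∧
          (∃ S : Set ℝ, volume S < ⊤ ∧ ∀ r, 2 < r → r ∉ S →
            ε * discChar f r ≤ discCount (counted F R Q μ f) r) ∧
          ∃ w ∈ ball (0 : ℂ) 1 \ {0}, LowContact F R Q μ m f w) ∧
        ∀ f, EntireCurve p 1 f → (∃ z, eval (f z) G ≠ 0) →
          (∃ S : Set ℝ, volume S < ⊤ ∧ ∀ r, 0 < r → r ∉ S →
            ε * entChar f r ≤ entCount (counted F R Q μ f) r) ∧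
          ∃ z, LowContact F R Q μ m f z) ∧
    (LogGeneralType ℂ K d (OffQ Q₀ q₀ y) →
      ∃ (G : MvPolynomial (Fin (n + 1)) ℂ) (ε : ℝ) (m : ℕ), IsForm G ∧ G ∉ p ∧ 0 < ε ∧
        (∀ f, PCurve p Q₀ f → (∃ w ∈ ball (0 : ℂ) 1 \ {0}, eval (f w) G ≠ 0) → ¬ Extends f →
          (∃ S : Set ℝ, volume S < ⊤ ∧ ∀ r, 2 < r → r ∉ S →
            ε * discChar f r ≤ discCount (onD F f) r) ∧
          ∃ i, ∃ w ∈ ball (0 : ℂ) 1 \ {0}, eval (f w) (F i) = 0 ∧
            analyticOrderAt (fun w => eval (f w) (F i)) w < m) ∧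
        ∀ f, EntireCurve p Q₀ f → (∃ z, eval (f z) G ≠ 0) →
          (∃ S : Set ℝ, volume S < ⊤ ∧ ∀ r, 0 < r → r ∉ S →
            ε * entChar f r ≤ entCount (onD F f) r) ∧
          ∃ i z, eval (f z) (F i) = 0 ∧ analyticOrderAt (fun z => eval (f z) (F i)) z < m) := by
  refine ⟨fun δ hδ => part_a hp hy he hF hFp hcz hQ hQp hμ hδ, fun hgt hbd =>
    part_b hp hQ₀ hy he hF hFp hcz hR hQ hRp hQp hμ hgt hbd, fun hgt => ?_⟩
  have h1p : (1 : MvPolynomial (Fin (n + 1)) ℂ) ∉ p := by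
    intro h
    have h1 := hy.sub.mem 1 h
    unfold val at h1
    rw [map_one] at h1
    exact one_ne_zero h1
  have hQ₀p : Q₀ ∉ p := fun h => hy.sub.off (hy.sub.mem _ h)
  obtain ⟨G, ε, m, hG, hGp, hε, h1, h2⟩ := part_b (μ := 0) hp hQ₀ hy he hF hFp hcz hQ₀
    (isHomogeneous_one _ _) hQ₀p h1p (fun P _ _ j _ => by
      rw [map_one, P.ord_one]
      simp) hgt (fun x _ hx => Or.inr (Or.inl hx))
  refine ⟨G, ε, m, hG, hGp, hε, fun f hf hfG hext => ?_, fun f hf hfG => ?_⟩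
  · obtain ⟨-, ⟨S, hS, hSr⟩, w, hw, hlow⟩ := h1 f ⟨hf.1, fun z hz => pts_one (hf.2 z hz)⟩ hfG hext
    obtain ⟨i, hi1, hi2⟩ := low_eq (hf.2 w hw).2.2 hlow
    refine ⟨⟨S, hS, fun r hr hrS => ?_⟩, i, w, hw, hi1, hi2⟩
    refine (hSr r hr hrS).trans (le_of_eq ?_)
    unfold discCount
    refine finsum_mem_congr rfl fun w hw => ?_
    have hw0 : 0 < ‖w‖ := lt_of_lt_of_le (inv_pos.2 (by linarith)) hw.1
    have hwb : w ∈ ball (0 : ℂ) 1 \ {0} := by
      refine ⟨?_, norm_pos_iff.1 hw0⟩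
      rw [mem_ball_zero_iff]
      have := hw.2
      norm_num at this
      linarith
    rw [counted_eq (hf.2 w hwb).2.2]
  · obtain ⟨⟨S, hS, hSr⟩, w, hlow⟩ := h2 f ⟨hf.1, fun z => pts_one (hf.2.1 z), hf.2.2⟩ hfG
    obtain ⟨i, hi1, hi2⟩ := low_eq (hf.2.1 w).2.2 hlow
    refine ⟨⟨S, hS, fun r hr hrS => ?_⟩, i, w, hi1, hi2⟩
    refine (hSr r hr hrS).trans (le_of_eq ?_)
    unfold entCount
    refine finsum_congr fun w => ?_
    rw [counted_eq (hf.2.1 w).2.2]

end Pool.Agent.Results.MP_160ed4_ag.TruncatedInequalities
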